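import Mathlib

/-!
# The integrals `J a b = ∫ sin^a cos^b` over `[0, π/2]`
-/

set_option autoImplicit false

namespace Pool.Agent.C14U

open Real MeasureTheory intervalIntegral

/-- `J a b = ∫_0^{π/2} sin^a cos^b`. -/
noncomputable def J (a b : ℕ) : ℝ := ∫ θ in (0 : ℝ)..(π / 2), sin θ ^ a * cos θ ^ b

lemma J_int (a b : ℕ) :
    IntervalIntegrable (fun θ : ℝ => sin θ ^ a * cos θ ^ b) volume 0 (π / 2) :=
  Continuous.intervalIntegrable (by fun_prop) _ _

lemma J_pos (a b : ℕ) : 0 < J a b := by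
  refine intervalIntegral_pos_of_pos_on (J_int a b) (fun x hx => ?_) (by positivity)
  have h1 : 0 < sin x := sin_pos_of_pos_of_lt_pi hx.1 (by linarith [hx.2, pi_pos])
  have h2 : 0 < cos x := cos_pos_of_mem_Ioo ⟨by linarith [hx.1, pi_pos], hx.2⟩
  positivity

lemma J_add (a b : ℕ) : J (a + 2) b + J a (b + 2) = J a b := by
  unfold J
  rw [← integral_add (J_int _ _) (J_int _ _)]
  refine integral_congr fun θ _ => ?_
  have := sin_sq_add_cos_sq θ
  calc sin θ ^ (a + 2) * cos θ ^ b + sin θ ^ a * cos θ ^ (b + 2)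
      = sin θ ^ a * cos θ ^ b * (sin θ ^ 2 + cos θ ^ 2) := by ring
    _ = sin θ ^ a * cos θ ^ b := by rw [this, mul_one]

lemma J_rec (a b : ℕ) : ((a : ℝ) + 1) * J a (b + 2) = ((b : ℝ) + 1) * J (a + 2) b := by
  have hd : ∀ θ ∈ Set.uIcc (0 : ℝ) (π / 2), HasDerivAt (fun θ => sin θ ^ (a + 1) * cos θ ^ (b + 1))
      (((a : ℝ) + 1) * (sin θ ^ a * cos θ ^ (b + 2)) - ((b : ℝ) + 1) * (sin θ ^ (a + 2) * cos θ ^ b))
      θ := by
    intro θ _
    have h1 := (hasDerivAt_sin θ).pow (a + 1)
    have h2 := (hasDerivAt_cos θ).pow (b + 1)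
    have h3 := h1.mul h2
    refine h3.congr_deriv ?_
    simp only [Nat.add_sub_cancel, Pi.pow_apply]
    push_cast
    ring
  have h := integral_eq_sub_of_hasDerivAt hd (((J_int a (b + 2)).const_mul _).sub
    ((J_int (a + 2) b).const_mul _))
  rw [integral_sub ((J_int a (b + 2)).const_mul _) ((J_int (a + 2) b).const_mul _),
    intervalIntegral.integral_const_mul, intervalIntegral.integral_const_mul] at h
  simp at h
  unfold J
  linarith

lemma J_left (a b : ℕ) : J (a + 2) b = ((a : ℝ) + 1) / (a + b + 2) * J a b := by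
  have h1 := J_add a b
  have h2 := J_rec a b
  have h3 : (0 : ℝ) < a + b + 2 := by positivity
  rw [div_mul_eq_mul_div, eq_div_iff h3.ne', ← h1]
  linear_combination -h2

lemma J_right (a b : ℕ) : J a (b + 2) = ((b : ℝ) + 1) / (a + b + 2) * J a b := by
  have h1 := J_add a b
  have h2 := J_rec a b
  have h3 : (0 : ℝ) < a + b + 2 := by positivity
  rw [div_mul_eq_mul_div, eq_div_iff h3.ne', ← h1]
  linear_combination h2

lemma J_zero_zero : J 0 0 = π / 2 := by
  unfold J; simp

lemma J_one_zero : J 1 0 = 1 := by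
  unfold J; simp

lemma J_zero_one : J 0 1 = 1 := by
  unfold J; simp

lemma J_one_one : J 1 1 = 1 / 2 := by
  unfold J
  simp [integral_sin_mul_cos₁]

/-- Joint log-convexity (Cauchy-Schwarz). -/
lemma J_sq_le (a b a' b' p q : ℕ) (ha : a + a' = 2 * p) (hb : b + b' = 2 * q) :
    J p q ^ 2 ≤ J a b * J a' b' := by
  have h1 := J_pos a b
  have h2 := J_pos a' b'
  have hpq := J_pos p q
  set l := √(J a' b' / J a b) with hl
  have hl0 : 0 < l := Real.sqrt_pos.mpr (by positivity)
  have hl2 : l ^ 2 = J a' b' / J a b := Real.sq_sqrt (by positivity)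
  have key : 2 * J p q ≤ l * J a b + l⁻¹ * J a' b' := by
    unfold J
    rw [← intervalIntegral.integral_const_mul, ← intervalIntegral.integral_const_mul,
      ← intervalIntegral.integral_const_mul,
      ← integral_add ((J_int a b).const_mul _) ((J_int a' b').const_mul _)]
    refine integral_mono_on (by positivity) ((J_int p q).const_mul _)
      (((J_int a b).const_mul _).add ((J_int a' b').const_mul _)) fun x hx => ?_
    have hs : 0 ≤ sin x := sin_nonneg_of_nonneg_of_le_pi hx.1 (by linarith [hx.2, pi_pos])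
    have hc : 0 ≤ cos x := cos_nonneg_of_mem_Icc ⟨by linarith [hx.1, pi_pos], hx.2⟩
    have hF : 0 ≤ sin x ^ a * cos x ^ b := by positivity
    have hG : 0 ≤ sin x ^ a' * cos x ^ b' := by positivity
    have hM : 0 ≤ sin x ^ p * cos x ^ q := by positivity
    have hMM : (sin x ^ p * cos x ^ q) ^ 2 = (sin x ^ a * cos x ^ b) * (sin x ^ a' * cos x ^ b') := by
      calc (sin x ^ p * cos x ^ q) ^ 2 = sin x ^ (2 * p) * cos x ^ (2 * q) := by ring
        _ = sin x ^ (a + a') * cos x ^ (b + b') := by rw [ha, hb]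
        _ = _ := by ring
    have h0 : 0 ≤ l * (sin x ^ a * cos x ^ b) + l⁻¹ * (sin x ^ a' * cos x ^ b') := by positivity
    refine abs_le_of_sq_le_sq' ?_ h0 |>.2
    have hll : l * l⁻¹ = 1 := mul_inv_cancel₀ hl0.ne'
    rw [mul_pow, hMM]
    nlinarith [sq_nonneg (l * (sin x ^ a * cos x ^ b) - l⁻¹ * (sin x ^ a' * cos x ^ b'))]
  have e1 : l * J a b + l⁻¹ * J a' b' = 2 * (l * J a b) := by
    have : l⁻¹ * J a' b' = l * J a b := by
      rw [inv_mul_eq_iff_eq_mul₀ hl0.ne']
      have : J a' b' = l ^ 2 * J a b := by rw [hl2]; field_simp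
      rw [this]; ring
    rw [this]; ring
  rw [e1] at key
  have h3 : J p q ≤ l * J a b := by linarith
  calc J p q ^ 2 ≤ (l * J a b) ^ 2 := pow_le_pow_left₀ hpq.le h3 2
    _ = l ^ 2 * J a b ^ 2 := by ring
    _ = J a b * J a' b' := by rw [hl2]; field_simp

/-- `t * C(t+s, t) = 1 / B(t, s+1)`. -/
lemma choose_J (t s : ℕ) :
    ((t : ℝ) + 1) * ((t + 1 + s).choose (t + 1) : ℝ) * (2 * J (2 * t + 1) (2 * s + 1)) = 1 := by
  induction t with
  | zero =>
    induction s with
    | zero => simp [J_one_one]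
    | succ s ih =>
      have e : J (2 * 0 + 1) (2 * (s + 1) + 1) = ((s : ℝ) + 1) / (s + 2) * J (2 * 0 + 1) (2 * s + 1) := by
        have := J_right (2 * 0 + 1) (2 * s + 1)
        rw [show 2 * (s + 1) + 1 = 2 * s + 1 + 2 by ring, this]
        congr 1
        push_cast
        field_simp
        ring
      rw [e]
      simp only [Nat.choose_one_right, zero_add] at ih ⊢
      push_cast at ih ⊢
      have hs : (0 : ℝ) < (s : ℝ) + 2 := by positivity
      field_simp at ih ⊢
      linear_combination ((s : ℝ) + 2) * ih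
  | succ t ih =>
    have e : J (2 * (t + 1) + 1) (2 * s + 1)
        = ((t : ℝ) + 1) / (t + s + 2) * J (2 * t + 1) (2 * s + 1) := by
      have := J_left (2 * t + 1) (2 * s + 1)
      rw [show 2 * (t + 1) + 1 = 2 * t + 1 + 2 by ring, this]
      congr 1
      push_cast
      field_simp
      ring
    have hc : ((t + 1 + 1 + s).choose (t + 1 + 1) : ℝ) * ((t : ℝ) + 2)
        = ((t : ℝ) + s + 2) * ((t + 1 + s).choose (t + 1) : ℝ) := by
      have := Nat.add_one_mul_choose_eq (t + 1 + s) (t + 1)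
      have h2 : t + 1 + 1 + s = t + 1 + s + 1 := by omega
      rw [h2]
      have h3 : ((t + 1 + s + 1 : ℕ) : ℝ) * ((t + 1 + s).choose (t + 1) : ℝ)
          = ((t + 1 + s + 1).choose (t + 1 + 1) : ℝ) * ((t + 1 + 1 : ℕ) : ℝ) := by
        exact_mod_cast this
      push_cast at h3
      linear_combination -h3
    rw [e]
    have h2 : (0 : ℝ) < (t : ℝ) + s + 2 := by positivity
    push_cast
    calc ((t : ℝ) + 1 + 1) * ((t + 1 + 1 + s).choose (t + 1 + 1) : ℝ)
          * (2 * (((t : ℝ) + 1) / (t + s + 2) * J (2 * t + 1) (2 * s + 1)))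
        = (((t + 1 + 1 + s).choose (t + 1 + 1) : ℝ) * ((t : ℝ) + 2))
          * (2 * (((t : ℝ) + 1) / (t + s + 2) * J (2 * t + 1) (2 * s + 1))) := by ring
      _ = ((t : ℝ) + 1) * ((t + 1 + s).choose (t + 1) : ℝ) * (2 * J (2 * t + 1) (2 * s + 1)) := by
          rw [hc]; field_simp
      _ = 1 := ih

end Pool.Agent.C14U
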