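import Pool.Agent.C14U.Seq
import Pool.Agent.Hhelper43.Cube.Upper

/-!
# The mean discrepancy at one vertex: exact telescoping and the bound by `J`
-/

set_option autoImplicit false

namespace Pool.Agent.C14U

open Real Finset
open Pool.Agent.Hhelper43.Cube (frac)

variable {n : ℕ}

/-- The number of `k`-sets meeting `S` in `x` points. -/
lemma card_inter (S : Finset (Fin n)) (k x : ℕ) (hx : x ≤ k) :
    #{D ∈ powersetCard k (univ : Finset (Fin n)) | #(D ∩ S) = x}
      = (#S).choose x * (#Sᶜ).choose (k - x) := by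
  rw [← Finset.card_powersetCard, ← Finset.card_powersetCard, ← Finset.card_product]
  refine Finset.card_nbij' (fun D => (D ∩ S, D ∩ Sᶜ)) (fun p => p.1 ∪ p.2) ?_ ?_ ?_ ?_
  · intro D hD
    simp only [coe_filter, Finset.mem_powersetCard, subset_univ, true_and, Set.mem_ofPred_eq] at hD
    simp only [coe_product, Set.mem_prod, mem_coe, Finset.mem_powersetCard, inter_subset_right,
      true_and]
    refine ⟨hD.2, ?_⟩
    have : #(D ∩ S) + #(D ∩ Sᶜ) = #D := by
      rw [← Finset.card_union_of_disjoint, ← Finset.inter_union_distrib_left,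
        Finset.union_compl, Finset.inter_univ]
      exact Finset.disjoint_left.mpr fun a ha hb => by
        simp only [mem_inter, mem_compl] at ha hb; exact hb.2 ha.2
    omega
  · intro p hp
    simp only [coe_product, Set.mem_prod, mem_coe, Finset.mem_powersetCard] at hp
    simp only [coe_filter, Finset.mem_powersetCard, subset_univ, true_and, Set.mem_ofPred_eq]
    have hd : Disjoint p.1 p.2 := Finset.disjoint_left.mpr fun a ha hb => by
      have := hp.2.1 hb
      simp only [mem_compl] at this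
      exact this (hp.1.1 ha)
    constructor
    · rw [Finset.card_union_of_disjoint hd, hp.1.2, hp.2.2]; omega
    · rw [Finset.union_inter_distrib_right, Finset.inter_eq_left.mpr hp.1.1]
      have : p.2 ∩ S = ∅ := by
        refine Finset.disjoint_iff_inter_eq_empty.mp (Finset.disjoint_left.mpr fun a ha hb => ?_)
        have := hp.2.1 ha
        simp only [mem_compl] at this
        exact this hb
      rw [this, Finset.union_empty, hp.1.2]
  · intro D hD
    simp only
    rw [← Finset.inter_union_distrib_left, Finset.union_compl, Finset.inter_univ]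
  · intro p hp
    simp only [coe_product, Set.mem_prod, mem_coe, Finset.mem_powersetCard] at hp
    have h1 : p.2 ∩ S = ∅ := by
      refine Finset.disjoint_iff_inter_eq_empty.mp (Finset.disjoint_left.mpr fun a ha hb => ?_)
      have := hp.2.1 ha
      simp only [mem_compl] at this
      exact this hb
    have h2 : p.1 ∩ Sᶜ = ∅ := by
      refine Finset.disjoint_iff_inter_eq_empty.mp (Finset.disjoint_left.mpr fun a ha hb => ?_)
      simp only [mem_compl] at hb
      exact hb (hp.1.1 ha)
    refine Prod.ext ?_ ?_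
    · simp only
      rw [Finset.union_inter_distrib_right, Finset.inter_eq_left.mpr hp.1.1, h1, Finset.union_empty]
    · simp only
      rw [Finset.union_inter_distrib_right, h2, Finset.inter_eq_left.mpr hp.2.1, Finset.empty_union]

/-- Sums over `k`-sets of functions of the intersection number. -/
lemma sum_inter (S : Finset (Fin n)) (k : ℕ) (φ : ℕ → ℝ) :
    ∑ D ∈ powersetCard k (univ : Finset (Fin n)), φ #(D ∩ S)
      = ∑ x ∈ range (k + 1), ((#S).choose x : ℝ) * ((#Sᶜ).choose (k - x) : ℝ) * φ x := by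
  rw [← Finset.sum_fiberwise_of_maps_to (s := powersetCard k (univ : Finset (Fin n)))
    (t := range (k + 1)) (g := fun D => #(D ∩ S)) (f := fun D => φ #(D ∩ S))]
  · refine Finset.sum_congr rfl fun x hx => ?_
    rw [Finset.mem_range] at hx
    have h1 : ∑ D ∈ powersetCard k (univ : Finset (Fin n)) with #(D ∩ S) = x, φ #(D ∩ S)
        = ∑ D ∈ powersetCard k (univ : Finset (Fin n)) with #(D ∩ S) = x, φ x := by
      refine Finset.sum_congr rfl fun D hD => ?_
      rw [(Finset.mem_filter.mp hD).2]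
    rw [h1, Finset.sum_const, card_inter S k x (by omega), nsmul_eq_mul]
    push_cast
    ring
  · intro D hD
    rw [Finset.mem_powersetCard] at hD
    rw [Finset.mem_range]
    have := Finset.card_le_card (Finset.inter_subset_left (s₁ := D) (s₂ := S))
    omega

/-- The telescoping function. -/
noncomputable def T (R B k x : ℕ) : ℝ :=
  ((x : ℝ) * (R.choose x : ℝ)) * (((k + 1 - x : ℕ) : ℝ) * (B.choose (k + 1 - x) : ℝ))

lemma choose_step (R x : ℕ) : ((x : ℝ) + 1) * (R.choose (x + 1) : ℝ) = ((R : ℝ) - x) * (R.choose x : ℝ) := by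
  have h := Nat.choose_succ_right_eq R x
  rcases le_or_gt x R with hx | hx
  · have : ((R.choose (x + 1) : ℕ) : ℝ) * ((x + 1 : ℕ) : ℝ) = (R.choose x : ℝ) * ((R - x : ℕ) : ℝ) := by
      exact_mod_cast h
    rw [Nat.cast_sub hx] at this
    push_cast at this
    linear_combination this
  · rw [Nat.choose_eq_zero_of_lt hx, Nat.choose_eq_zero_of_lt (by omega)]; simp

lemma T_step (R B k x : ℕ) (hx : x ≤ k) :
    (R.choose x : ℝ) * (B.choose (k - x) : ℝ) * (((R : ℝ) + B) * x - k * R)
      = T R B k x - T R B k (x + 1) := by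
  unfold T
  obtain ⟨y, rfl⟩ : ∃ y, k = x + y := ⟨k - x, by omega⟩
  have e1 : x + y - x = y := by omega
  have e2 : x + y + 1 - x = y + 1 := by omega
  have e3 : x + y + 1 - (x + 1) = y := by omega
  rw [e1, e2, e3]
  have h1 := choose_step R x
  have h2 := choose_step B y
  push_cast
  calc (R.choose x : ℝ) * (B.choose y : ℝ) * (((R : ℝ) + B) * x - (x + y) * R)
      = (x * (R.choose x : ℝ)) * (((B : ℝ) - y) * (B.choose y : ℝ))
        - (((R : ℝ) - x) * (R.choose x : ℝ)) * (y * (B.choose y : ℝ)) := by ring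
    _ = _ := by rw [← h1, ← h2]

lemma T_bound (R B k x : ℕ) (hk : k ≤ R + B) :
    T R B k x ≤ 1 / (4 * J k (R + B - k) ^ 2) := by
  have hJ := J_pos k (R + B - k)
  have h0 : 0 ≤ 1 / (4 * J k (R + B - k) ^ 2) := by positivity
  unfold T
  rcases Nat.eq_zero_or_pos x with rfl | hx
  · simpa using h0
  obtain ⟨t, rfl⟩ : ∃ t, x = t + 1 := ⟨x - 1, by omega⟩
  rcases Nat.lt_or_ge R (t + 1) with hR | hR
  · rw [Nat.choose_eq_zero_of_lt hR]; simpa using h0
  obtain ⟨s, rfl⟩ : ∃ s, R = t + 1 + s := ⟨R - (t + 1), by omega⟩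
  rcases Nat.eq_zero_or_pos (k + 1 - (t + 1)) with hy | hy
  · rw [hy]; simpa using h0
  obtain ⟨t', ht'⟩ : ∃ t', k + 1 - (t + 1) = t' + 1 := ⟨k + 1 - (t + 1) - 1, by omega⟩
  rw [ht']
  rcases Nat.lt_or_ge B (t' + 1) with hB | hB
  · rw [Nat.choose_eq_zero_of_lt hB]; simpa using h0
  obtain ⟨s', rfl⟩ : ∃ s', B = t' + 1 + s' := ⟨B - (t' + 1), by omega⟩
  have c1 := choose_J t s
  have c2 := choose_J t' s'
  have hk' : k = t + t' + 1 := by omega
  have hle := J_sq_le (2 * t + 1) (2 * s + 1) (2 * t' + 1) (2 * s' + 1) k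
    (t + 1 + s + (t' + 1 + s') - k) (by omega) (by omega)
  have hJ1 := J_pos (2 * t + 1) (2 * s + 1)
  have hJ2 := J_pos (2 * t' + 1) (2 * s' + 1)
  have d1 : ((t : ℝ) + 1) * ((t + 1 + s).choose (t + 1) : ℝ) = 1 / (2 * J (2 * t + 1) (2 * s + 1)) := by
    rw [eq_div_iff (by positivity)]; exact c1
  have d2 : ((t' : ℝ) + 1) * ((t' + 1 + s').choose (t' + 1) : ℝ)
      = 1 / (2 * J (2 * t' + 1) (2 * s' + 1)) := by
    rw [eq_div_iff (by positivity)]; exact c2
  push_cast
  rw [d1, d2, div_mul_div_comm, one_mul]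
  refine one_div_le_one_div_of_le (by positivity) ?_
  linarith

lemma unimodal_sum (f : ℕ → ℝ) (x0 k : ℕ) (hk : x0 ≤ k) (h1 : ∀ x, x ≤ x0 → f x ≤ f (x + 1))
    (h2 : ∀ x, x0 < x → x ≤ k → f (x + 1) ≤ f x) :
    ∑ x ∈ range (k + 1), |f x - f (x + 1)| = 2 * f (x0 + 1) - f 0 - f (k + 1) := by
  induction k, hk using Nat.le_induction with
  | base =>
    have : ∑ x ∈ range (x0 + 1), |f x - f (x + 1)| = ∑ x ∈ range (x0 + 1), (f (x + 1) - f x) := by
      refine Finset.sum_congr rfl fun x hx => ?_
      rw [Finset.mem_range] at hx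
      rw [abs_of_nonpos (by linarith [h1 x (by omega)])]
      ring
    rw [this, Finset.sum_range_sub]
    ring
  | succ k hk ih =>
    rw [Finset.sum_range_succ, ih (fun x hx hxk => h2 x hx (by omega)),
      abs_of_nonneg (by linarith [h2 (k + 1) (by omega) le_rfl])]
    ring

/-- The mean discrepancy at one vertex. -/
lemma disc (k : ℕ) (hk : 1 ≤ k) (hkn : k < n) (c : Fin n → Bool) :
    ∑ D ∈ powersetCard k (univ : Finset (Fin n)), |frac Dᶜ c - frac D c|
      ≤ 1 / (2 * k * ((n : ℝ) - k) * J k (n - k) ^ 2) := by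
  set S : Finset (Fin n) := univ.filter (fun i => c i = true) with hS
  set R := #S with hR
  set B := #Sᶜ with hB
  have hRB : R + B = n := by
    rw [hR, hB, Finset.card_compl, Fintype.card_fin]
    have := Finset.card_le_univ S
    rw [Fintype.card_fin] at this
    omega
  have hRBr : (R : ℝ) + B = n := by exact_mod_cast hRB
  have hk0 : (0 : ℝ) < k := by exact_mod_cast hk
  have hn0 : (0 : ℝ) < (n : ℝ) - k := by
    have : (k : ℝ) < n := by exact_mod_cast hkn
    linarith
  have hsum : ∀ P : Finset (Fin n), ∑ d ∈ P, (if c d then (1 : ℝ) else 0) = #(P ∩ S) := by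
    intro P
    rw [← Finset.sum_filter, Finset.sum_const, nsmul_eq_mul, mul_one]
    congr 2
    ext i
    simp [hS]
  have hcompl : ∀ D : Finset (Fin n), (#(Dᶜ ∩ S) : ℝ) = R - #(D ∩ S) := by
    intro D
    have : #(D ∩ S) + #(Dᶜ ∩ S) = #S := by
      rw [← Finset.card_union_of_disjoint, ← Finset.union_inter_distrib_right, Finset.union_compl,
        Finset.univ_inter]
      exact Finset.disjoint_left.mpr fun a ha hb => by
        simp only [mem_inter, mem_compl] at ha hb; exact hb.1 ha.1
    have h2 : (#(D ∩ S) : ℝ) + #(Dᶜ ∩ S) = R := by exact_mod_cast this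
    linarith
  have e1 : ∀ D ∈ powersetCard k (univ : Finset (Fin n)),
      |frac Dᶜ c - frac D c|
        = |((R : ℝ) + B) * (#(D ∩ S) : ℕ) - k * R| / (k * ((n : ℝ) - k)) := by
    intro D hD
    rw [Finset.mem_powersetCard] at hD
    unfold frac
    rw [hsum, hsum, hcompl, Finset.card_compl, Fintype.card_fin, hD.2, Nat.cast_sub hkn.le, hRBr]
    have : ((R : ℝ) - #(D ∩ S)) / ((n : ℝ) - k) - (#(D ∩ S) : ℝ) / k
        = -(((n : ℝ) * #(D ∩ S) - k * R) / (k * ((n : ℝ) - k))) := by
      field_simp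
      ring
    rw [this, abs_neg, abs_div, abs_of_pos (by positivity : 0 < (k : ℝ) * ((n : ℝ) - k))]
  rw [Finset.sum_congr rfl e1,
    sum_inter S k (fun x : ℕ => |((R : ℝ) + B) * x - k * R| / (k * ((n : ℝ) - k)))]
  have e2 : ∀ x ∈ range (k + 1),
      (R.choose x : ℝ) * (B.choose (k - x) : ℝ) * (|((R : ℝ) + B) * x - k * R| / (k * ((n : ℝ) - k)))
        = |T R B k x - T R B k (x + 1)| / (k * ((n : ℝ) - k)) := by
    intro x hx
    rw [Finset.mem_range] at hx
    have hp : (0 : ℝ) ≤ (R.choose x : ℝ) * (B.choose (k - x) : ℝ) := by positivity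
    rw [← T_step R B k x (by omega), abs_mul, abs_of_nonneg hp, mul_div_assoc]
  rw [Finset.sum_congr rfl e2, ← Finset.sum_div]
  have hx0 : k * R / n ≤ k := by
    refine Nat.div_le_of_le_mul ?_
    rw [mul_comm n k]
    exact Nat.mul_le_mul_left k (by omega)
  have hnpos : 0 < n := by omega
  rw [unimodal_sum (T R B k) (k * R / n) k hx0]
  · have hT0 : T R B k 0 = 0 := by unfold T; simp
    have hTk : T R B k (k + 1) = 0 := by unfold T; simp
    rw [hT0, hTk, sub_zero, sub_zero]
    have hb := T_bound R B k (k * R / n + 1) (by omega)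
    rw [hRB] at hb
    have hJ := J_pos k (n - k)
    calc 2 * T R B k (k * R / n + 1) / (k * ((n : ℝ) - k))
        ≤ 2 * (1 / (4 * J k (n - k) ^ 2)) / (k * ((n : ℝ) - k)) := by
          refine div_le_div_of_nonneg_right ?_ (by positivity)
          linarith
      _ = _ := by field_simp; ring
  · intro x hx
    have hxk : x ≤ k := hx.trans hx0
    have h := T_step R B k x hxk
    have h1 : n * x ≤ k * R := by
      calc n * x ≤ n * (k * R / n) := Nat.mul_le_mul_left n hx
        _ ≤ k * R := Nat.mul_div_le _ _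
    have h2 : ((R : ℝ) + B) * x - k * R ≤ 0 := by
      rw [hRBr]
      have : (n : ℝ) * x ≤ k * R := by exact_mod_cast h1
      linarith
    have h3 : (R.choose x : ℝ) * (B.choose (k - x) : ℝ) * (((R : ℝ) + B) * x - k * R) ≤ 0 :=
      mul_nonpos_of_nonneg_of_nonpos (by positivity) h2
    linarith
  · intro x hx hxk
    have h := T_step R B k x hxk
    have h1 : k * R ≤ n * x := by
      have := (Nat.div_lt_iff_lt_mul hnpos).mp hx
      rw [mul_comm n x]
      exact this.le
    have h2 : 0 ≤ ((R : ℝ) + B) * x - k * R := by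
      rw [hRBr]
      have : (k : ℝ) * R ≤ n * x := by exact_mod_cast h1
      linarith
    have h3 : 0 ≤ (R.choose x : ℝ) * (B.choose (k - x) : ℝ) * (((R : ℝ) + B) * x - k * R) :=
      mul_nonneg (by positivity) h2
    linarith

/-- The level bound in terms of `v`. -/
lemma disc_v (k : ℕ) (hk : k + 1 < n) (c : Fin n → Bool) :
    ∑ D ∈ powersetCard (k + 1) (univ : Finset (Fin n)), |frac Dᶜ c - frac D c|
      ≤ (n.choose (k + 1) : ℝ) * (v k * v (n - 2 - k) / (2 * v n)) := by
  refine (disc (k + 1) (by omega) hk c).trans (le_of_eq ?_)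
  obtain ⟨l, rfl⟩ : ∃ l, n = k + l + 2 := ⟨n - (k + 2), by omega⟩
  have hP := levelP_all k l
  unfold LevelP at hP
  have e1 : k + l + 2 - (k + 1) = l + 1 := by omega
  have e2 : k + l + 2 - 2 - k = l := by omega
  rw [e1, e2, ← hP]
  have hJ := J_pos (k + 1) (l + 1)
  have hv := v_pos k
  have hv' := v_pos l
  have hc : (0 : ℝ) < ((k + l + 2).choose (k + 1) : ℝ) := by
    exact_mod_cast Nat.choose_pos (by omega)
  push_cast
  have e3 : (k : ℝ) + l + 2 - (k + 1) = l + 1 := by ring
  rw [e3]
  have h1 : (0 : ℝ) < (k : ℝ) + 1 := by positivity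
  have h2 : (0 : ℝ) < (l : ℝ) + 1 := by positivity
  field_simp

end Pool.Agent.C14U
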