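import Pool.Agent.C14U.Hyp
import Pool.Agent.Hhelper43.Cube.Lower

/-!
# The upper bound `M n ≤ √(π n / 2)`
-/

set_option autoImplicit false

namespace Pool.Agent.C14U

open Real Finset
open Pool.Agent.Hhelper43.Cube

lemma Phi_le' {n : ℕ} (χ : Sym2 (V n) → Bool) (K : ℕ) (hK : K < n) :
    Phi χ K / ((n.choose K : ℝ) * ((n - K : ℕ) : ℝ)) ≤ 2 ^ n *
      ∑ k ∈ Finset.range K, v k * v (n - 2 - k) / (2 * v n) := by
  induction K with
  | zero => simp [Phi_zero]
  | succ K ih =>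
    rw [Finset.sum_range_succ, mul_add]
    have ih' := ih (by omega)
    have hs := Phi_step χ K hK
    have hC : (0 : ℝ) < (n.choose (K + 1) : ℝ) := by
      exact_mod_cast Nat.choose_pos hK.le
    have hD : Delta χ (K + 1) ≤ 2 ^ n * ((n.choose (K + 1) : ℝ)
        * (v K * v (n - 2 - K) / (2 * v n))) := by
      unfold Delta
      refine (Finset.sum_le_sum fun w _ => disc_v K hK (ecol χ w)).trans ?_
      rw [Finset.sum_const, Finset.card_univ, nsmul_eq_mul]
      refine le_of_eq ?_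
      congr 1
      simp
    have hK1 : ((K + 1 : ℕ) : ℝ) * (n.choose (K + 1) : ℝ) = (n.choose K : ℝ) * ((n - K : ℕ) : ℝ) := by
      have := Nat.choose_succ_right_eq n K
      rw [mul_comm]
      exact_mod_cast this
    have hn1 : (0 : ℝ) < ((n - (K + 1) : ℕ) : ℝ) := by
      exact_mod_cast (by omega : 0 < n - (K + 1))
    have hK0 : (0 : ℝ) < ((K + 1 : ℕ) : ℝ) := by positivity
    calc Phi χ (K + 1) / ((n.choose (K + 1) : ℝ) * ((n - (K + 1) : ℕ) : ℝ))
        = (Phi χ (K + 1) / ((n - (K + 1) : ℕ) : ℝ)) / (n.choose (K + 1) : ℝ) := by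
          field_simp
      _ ≤ (Delta χ (K + 1) + Phi χ K / (K + 1 : ℕ)) / (n.choose (K + 1) : ℝ) :=
          div_le_div_of_nonneg_right hs hC.le
      _ = Delta χ (K + 1) / (n.choose (K + 1) : ℝ)
            + Phi χ K / ((n.choose K : ℝ) * ((n - K : ℕ) : ℝ)) := by
          rw [← hK1]
          field_simp
      _ ≤ _ := by
          rw [add_comm]
          refine add_le_add ih' ?_
          rw [div_le_iff₀ hC]
          refine hD.trans (le_of_eq ?_)
          ring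

lemma A_le_S {n : ℕ} (χ : Sym2 (V n) → Bool) (hn : 2 ≤ n) :
    A χ ≤ S (n - 2) / (2 * v n) := by
  have h1 := sum_m_le χ (by omega : 1 ≤ n)
  have h2 := Phi_le' χ (n - 1) (by omega)
  have hn0 : (0 : ℝ) < n := by exact_mod_cast (by omega : 0 < n)
  have h3 : (n.choose (n - 1) : ℝ) * ((n - (n - 1) : ℕ) : ℝ) = n := by
    have e1 : n - (n - 1) = 1 := by omega
    have e2 : n.choose (n - 1) = n := by
      rw [Nat.choose_symm (by omega : 1 ≤ n), Nat.choose_one_right]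
    rw [e1, e2]; simp
  rw [h3] at h2
  have h4 : ∑ k ∈ Finset.range (n - 1), v k * v (n - 2 - k) / (2 * v n) = S (n - 2) / (2 * v n) := by
    unfold S
    rw [Finset.sum_div, show n - 2 + 1 = n - 1 by omega]
  rw [h4] at h2
  have h9 : ∑ w : V n, (m χ w : ℝ) ≤ Phi χ (n - 1) / n := by
    rw [le_div_iff₀ hn0]
    linarith
  unfold A
  rw [div_le_iff₀ (by positivity)]
  refine (h9.trans h2).trans (le_of_eq ?_)
  ring

lemma M_le_S (n : ℕ) (hn : 2 ≤ n) : M n ≤ S (n - 2) / (2 * v n) :=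
  ciSup_le fun χ => A_le_S χ hn

lemma S_le (n : ℕ) (hn : 2 ≤ n) : S (n - 2) ≤ 2 - v n := by
  obtain ⟨N, rfl⟩ : ∃ N, n = N + 2 := ⟨n - 2, by omega⟩
  rw [Nat.add_sub_cancel]
  have h1 := v_anti N
  have h2 := v_anti (N + 1)
  rcases Nat.even_or_odd' N with ⟨K, rfl | rfl⟩
  · have := S_even K
    rw [show 2 * K + 1 + 1 = 2 * K + 2 by ring] at h2
    linarith
  · have := S_odd K
    rw [show 2 * K + 1 + 1 = 2 * K + 2 by ring] at h1 h2
    rw [show 2 * K + 1 + 2 = 2 * K + 2 + 1 by ring]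
    linarith

lemma inv_v_le (n : ℕ) : 1 / v n ≤ √(π * (n + 1) / 2) := by
  have h1 := v_pos n
  have h2 := v_mul n
  have h3 := v_anti n
  refine Real.le_sqrt_of_sq_le ?_
  have h4 : 2 / (π * (n + 1)) ≤ v n ^ 2 := by
    rw [← h2, pow_two]; exact mul_le_mul_of_nonneg_left h3 h1.le
  have hp := pi_pos
  rw [div_pow, one_pow, div_le_iff₀ (by positivity)]
  calc (1 : ℝ) = π * (n + 1) / 2 * (2 / (π * (n + 1))) := by field_simp
    _ ≤ _ := mul_le_mul_of_nonneg_left h4 (by positivity)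

lemma M_le_sqrt (n : ℕ) (hn : 2 ≤ n) : M n ≤ √(π * (n + 1) / 2) - 1 / 2 := by
  have h1 := M_le_S n hn
  have h2 := S_le n hn
  have h3 := v_pos n
  have h4 := inv_v_le n
  have h5 : S (n - 2) / (2 * v n) ≤ (2 - v n) / (2 * v n) :=
    div_le_div_of_nonneg_right h2 (by positivity)
  have h6 : (2 - v n) / (2 * v n) = 1 / v n - 1 / 2 := by
    field_simp
  linarith

lemma M_even (h : ℕ) (hh : 1 ≤ h) :
    M (2 * h) ≤ 4 ^ h / (Nat.centralBinom h : ℝ) - h / (2 * h - 1) := by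
  obtain ⟨K, rfl⟩ : ∃ K, h = K + 1 := ⟨h - 1, by omega⟩
  have h1 := M_le_S (2 * (K + 1)) (by omega)
  have h2 := S_even K
  have h3 := v_pos (2 * (K + 1))
  have h4 : v (2 * (K + 1)) = ((2 * K : ℕ) + 1 : ℝ) / ((2 * K : ℕ) + 2) * v (2 * K) := by
    rw [show 2 * (K + 1) = 2 * K + 2 by ring]; exact v_add_two _
  have h5 := v_pos (2 * K)
  rw [show 2 * (K + 1) - 2 = 2 * K by omega] at h1
  refine h1.trans ((div_le_div_of_nonneg_right h2 (by positivity)).trans (le_of_eq ?_))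
  have h6 : (4 : ℝ) ^ (K + 1) / (Nat.centralBinom (K + 1) : ℝ) = 1 / v (2 * (K + 1)) := by
    rw [v_even, one_div_div]
  have h7 : v (2 * K) = (2 * (K : ℝ) + 2) / (2 * K + 1) * v (2 * (K + 1)) := by
    rw [h4]; push_cast; field_simp
  rw [h6, h7]
  push_cast
  have h8 : (0 : ℝ) < 2 * (K : ℝ) + 1 := by positivity
  have h9 : 2 * ((K : ℝ) + 1) - 1 = 2 * K + 1 := by ring
  rw [h9]
  field_simp

lemma sqrt_step (n : ℕ) (hn : 2 ≤ n) : √(π * (n + 1) / 2) - 1 / 2 ≤ √(π * n / 2) := by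
  have hn' : (2 : ℝ) ≤ n := by exact_mod_cast hn
  have hp := pi_gt_three
  have hp4 := pi_le_four
  have h0 : 0 ≤ √(π * n / 2) := Real.sqrt_nonneg _
  have h1 : √(π * n / 2) ^ 2 = π * n / 2 := Real.sq_sqrt (by positivity)
  have h3 : √(π * (n + 1) / 2) ≤ √(π * n / 2) + 1 / 2 := by
    rw [Real.sqrt_le_left (by positivity)]
    have h4 : π / 2 - 1 / 4 ≤ √(π * n / 2) := by
      refine Real.le_sqrt_of_sq_le ?_
      have : π < 3.15 := pi_lt_d2
      nlinarith
    nlinarith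
  linarith

end Pool.Agent.C14U
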