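import Pool.Agent.C14U.Beta

/-!
# The sequence `v i = (1/π) ∫_0^π sin^i` and its convolution square
-/

set_option autoImplicit false

namespace Pool.Agent.C14U

open Real Finset

/-- `v i = (2/π) ∫_0^{π/2} sin^i`. -/
noncomputable def v (i : ℕ) : ℝ := 2 / π * J i 0

lemma v_pos (i : ℕ) : 0 < v i := by
  unfold v
  have := J_pos i 0
  positivity

lemma v_zero : v 0 = 1 := by
  unfold v; rw [J_zero_zero]; field_simp

lemma v_one : v 1 = 2 / π := by
  unfold v; rw [J_one_zero, mul_one]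

lemma v_add_two (i : ℕ) : v (i + 2) = ((i : ℝ) + 1) / (i + 2) * v i := by
  unfold v
  rw [J_left i 0]
  push_cast
  ring

lemma v_mul (i : ℕ) : v i * v (i + 1) = 2 / (π * (i + 1)) := by
  induction i with
  | zero => rw [v_zero, v_one]; simp
  | succ i ih =>
    have h1 : (0 : ℝ) < (i : ℝ) + 1 := by positivity
    have h2 : (0 : ℝ) < (i : ℝ) + 2 := by positivity
    rw [show i + 1 + 1 = i + 2 by ring, v_add_two]
    calc v (i + 1) * (((i : ℝ) + 1) / (i + 2) * v i)
        = (v i * v (i + 1)) * (((i : ℝ) + 1) / (i + 2)) := by ring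
      _ = _ := by
        rw [ih]
        push_cast
        field_simp
        ring

lemma v_sq_le (i : ℕ) : v (i + 1) ^ 2 ≤ v i * v (i + 2) := by
  have h := J_sq_le i 0 (i + 2) 0 (i + 1) 0 (by ring) (by ring)
  unfold v
  have : (0 : ℝ) ≤ (2 / π) ^ 2 := by positivity
  calc (2 / π * J (i + 1) 0) ^ 2 = (2 / π) ^ 2 * J (i + 1) 0 ^ 2 := by ring
    _ ≤ (2 / π) ^ 2 * (J i 0 * J (i + 2) 0) := mul_le_mul_of_nonneg_left h this
    _ = _ := by ring

/-- Convexity. -/
lemma v_conv (i : ℕ) : 2 * v (i + 1) ≤ v i + v (i + 2) := by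
  have h := v_sq_le i
  have h1 := v_pos i
  have h2 := v_pos (i + 1)
  have h3 := v_pos (i + 2)
  refine abs_le_of_sq_le_sq' ?_ (by positivity) |>.2
  nlinarith [sq_nonneg (v i - v (i + 2))]

/-- The mixed inequality. -/
lemma v_mix (i j : ℕ) : 2 * (v (i + 1) * v (j + 1)) ≤ v (i + 2) * v j + v i * v (j + 2) := by
  have h := v_sq_le i
  have h' := v_sq_le j
  have h1 := v_pos i
  have h2 := v_pos (i + 1)
  have h3 := v_pos (i + 2)
  have h1' := v_pos j
  have h2' := v_pos (j + 1)
  have h3' := v_pos (j + 2)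
  refine abs_le_of_sq_le_sq' ?_ (by positivity) |>.2
  have hp : v (i + 1) ^ 2 * v (j + 1) ^ 2 ≤ (v i * v (i + 2)) * (v j * v (j + 2)) :=
    mul_le_mul h h' (by positivity) (by positivity)
  nlinarith [sq_nonneg (v (i + 2) * v j - v i * v (j + 2))]

lemma v_anti (i : ℕ) : v (i + 1) ≤ v i := by
  have h1 := v_pos i
  have h2 := v_pos (i + 1)
  have h := v_sq_le i
  rw [v_add_two] at h
  have h3 : ((i : ℝ) + 1) / (i + 2) ≤ 1 := by
    rw [div_le_one (by positivity)]; linarith
  have h4 : v (i + 1) ^ 2 ≤ v i ^ 2 := by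
    refine h.trans ?_
    nlinarith [mul_nonneg h1.le h1.le]
  exact abs_le_of_sq_le_sq' h4 h1.le |>.2

/-- `v` at even places is the central binomial coefficient. -/
lemma v_even (h : ℕ) : v (2 * h) = (Nat.centralBinom h : ℝ) / 4 ^ h := by
  induction h with
  | zero => simp [v_zero]
  | succ h ih =>
    rw [show 2 * (h + 1) = 2 * h + 2 by ring, v_add_two, ih]
    have := Nat.succ_mul_centralBinom_succ h
    have h2 : ((h : ℝ) + 1) * (Nat.centralBinom (h + 1) : ℝ)
        = 2 * (2 * h + 1) * (Nat.centralBinom h : ℝ) := by exact_mod_cast this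
    have h3 : (0 : ℝ) < (h : ℝ) + 1 := by positivity
    have h4 : (Nat.centralBinom (h + 1) : ℝ) = 2 * (2 * h + 1) * (Nat.centralBinom h : ℝ) / (h + 1) := by
      rw [eq_div_iff h3.ne']; linarith
    rw [h4]
    push_cast
    field_simp
    ring

/-- `∑ C(2a,a) C(2b,b) = 4^J`, normalised. -/
lemma even_conv (K : ℕ) : ∑ p ∈ antidiagonal K, v (2 * p.1) * v (2 * p.2) = 1 := by
  induction K with
  | zero => simp [v_zero]
  | succ K ih =>
    have hsw : ∀ (N : ℕ) (f : ℕ → ℕ → ℝ), ∑ p ∈ antidiagonal N, f p.1 p.2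
        = ∑ p ∈ antidiagonal N, f p.2 p.1 := by
      intro N f
      have := Finset.Nat.sum_antidiagonal_swap (n := N) (f := fun p => f p.1 p.2)
      simpa using this.symm
    have e1 : ∑ p ∈ antidiagonal (K + 1), (p.1 : ℝ) * (v (2 * p.1) * v (2 * p.2))
        = ∑ p ∈ antidiagonal K, ((p.1 : ℝ) + 1 / 2) * (v (2 * p.1) * v (2 * p.2)) := by
      rw [Finset.Nat.sum_antidiagonal_succ]
      simp only [Nat.cast_zero, zero_mul, zero_add]
      refine Finset.sum_congr rfl fun p _ => ?_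
      rw [show 2 * (p.1 + 1) = 2 * p.1 + 2 by ring, v_add_two]
      have : (0 : ℝ) < (p.1 : ℝ) + 1 := by positivity
      push_cast
      field_simp
    have e2 : ((K : ℝ) + 1) * ∑ p ∈ antidiagonal (K + 1), v (2 * p.1) * v (2 * p.2)
        = 2 * ∑ p ∈ antidiagonal (K + 1), (p.1 : ℝ) * (v (2 * p.1) * v (2 * p.2)) := by
      have h1 := hsw (K + 1) (fun a b => (a : ℝ) * (v (2 * a) * v (2 * b)))
      rw [two_mul]
      nth_rewrite 2 [h1]
      rw [← Finset.sum_add_distrib, Finset.mul_sum]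
      refine Finset.sum_congr rfl fun p hp => ?_
      have : (p.1 : ℝ) + p.2 = K + 1 := by
        have := Finset.HasAntidiagonal.mem_antidiagonal.mp hp
        exact_mod_cast this
      rw [← this]; ring
    have e3 : ((K : ℝ) + 1) * ∑ p ∈ antidiagonal K, v (2 * p.1) * v (2 * p.2)
        = 2 * ∑ p ∈ antidiagonal K, ((p.1 : ℝ) + 1 / 2) * (v (2 * p.1) * v (2 * p.2)) := by
      have h1 := hsw K (fun a b => ((a : ℝ) + 1 / 2) * (v (2 * a) * v (2 * b)))
      rw [two_mul]
      nth_rewrite 2 [h1]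
      rw [← Finset.sum_add_distrib, Finset.mul_sum]
      refine Finset.sum_congr rfl fun p hp => ?_
      have : (p.1 : ℝ) + p.2 = K := by
        have := Finset.HasAntidiagonal.mem_antidiagonal.mp hp
        exact_mod_cast this
      rw [← this]; ring
    have h3 : (0 : ℝ) < (K : ℝ) + 1 := by positivity
    have : ((K : ℝ) + 1) * ∑ p ∈ antidiagonal (K + 1), v (2 * p.1) * v (2 * p.2)
        = ((K : ℝ) + 1) * 1 := by
      rw [e2, e1, ← e3, ih]
    exact mul_left_cancel₀ h3.ne' this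

lemma even_conv' (K : ℕ) : ∑ a ∈ range (K + 1), v (2 * a) * v (2 * (K - a)) = 1 := by
  rw [← even_conv K, Finset.Nat.sum_antidiagonal_eq_sum_range_succ (fun a b => v (2 * a) * v (2 * b))]

/-- The convolution square. -/
noncomputable def S (N : ℕ) : ℝ := ∑ i ∈ range (N + 1), v i * v (N - i)

lemma split_even (f : ℕ → ℝ) (K : ℕ) :
    ∑ i ∈ range (2 * K + 1), f i = ∑ a ∈ range (K + 1), f (2 * a) + ∑ a ∈ range K, f (2 * a + 1) := by
  induction K with
  | zero => simp
  | succ K ih =>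
    rw [show 2 * (K + 1) + 1 = 2 * K + 1 + 1 + 1 by ring, Finset.sum_range_succ,
      Finset.sum_range_succ, ih, Finset.sum_range_succ (fun a => f (2 * a)) (K + 1),
      Finset.sum_range_succ (fun a => f (2 * a + 1)) K]
    rw [show 2 * (K + 1) = 2 * K + 1 + 1 by ring]
    ring

lemma split_odd (f : ℕ → ℝ) (K : ℕ) :
    ∑ i ∈ range (2 * K + 2), f i
      = ∑ a ∈ range (K + 1), f (2 * a) + ∑ a ∈ range (K + 1), f (2 * a + 1) := by
  rw [Finset.sum_range_succ, split_even f K, Finset.sum_range_succ (fun a => f (2 * a + 1)) K]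
  ring

lemma S_even (K : ℕ) : S (2 * K) ≤ 2 - v (2 * K) := by
  unfold S
  rw [split_even]
  have h1 : ∑ a ∈ range (K + 1), v (2 * a) * v (2 * K - 2 * a) = 1 := by
    rw [← even_conv' K]
    refine Finset.sum_congr rfl fun a _ => ?_
    rw [Nat.mul_sub]
  have h2 : ∑ a ∈ range K, v (2 * a + 1) * v (2 * K - (2 * a + 1))
      ≤ ∑ a ∈ range K, (v (2 * (a + 1)) * v (2 * (K - (a + 1)))
        + v (2 * a) * v (2 * (K - a))) / 2 := by
    refine Finset.sum_le_sum fun a ha => ?_
    rw [Finset.mem_range] at ha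
    have := v_mix (2 * a) (2 * (K - (a + 1)))
    have e1 : 2 * K - (2 * a + 1) = 2 * (K - (a + 1)) + 1 := by omega
    have e2 : 2 * (K - a) = 2 * (K - (a + 1)) + 2 := by omega
    rw [e1, e2, show 2 * (a + 1) = 2 * a + 2 by ring]
    linarith
  have h3 := even_conv' K
  have h4 : ∑ a ∈ range K, v (2 * a) * v (2 * (K - a)) = 1 - v (2 * K) := by
    rw [Finset.sum_range_succ] at h3
    simp only [Nat.sub_self, Nat.mul_zero, v_zero, mul_one] at h3
    linarith
  have h5 : ∑ a ∈ range K, v (2 * (a + 1)) * v (2 * (K - (a + 1))) = 1 - v (2 * K) := by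
    rw [Finset.sum_range_succ'] at h3
    simp only [Nat.sub_zero, Nat.mul_zero, v_zero, one_mul] at h3
    linarith
  rw [← Finset.sum_div, Finset.sum_add_distrib, h4, h5] at h2
  linarith

lemma S_odd (K : ℕ) : S (2 * K + 1) ≤ 2 - v (2 * K + 2) := by
  unfold S
  rw [show 2 * K + 1 + 1 = 2 * K + 2 by ring, split_odd]
  have h3 := even_conv' K
  have h3' := even_conv' (K + 1)
  have h4 : ∑ a ∈ range (K + 1), v (2 * a) * v (2 * (K + 1 - a)) = 1 - v (2 * K + 2) := by
    rw [Finset.sum_range_succ] at h3'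
    simp only [Nat.sub_self, Nat.mul_zero, v_zero, mul_one] at h3'
    rw [show 2 * (K + 1) = 2 * K + 2 by ring] at h3'
    linarith
  have h5 : ∑ a ∈ range (K + 1), v (2 * (a + 1)) * v (2 * (K - a)) = 1 - v (2 * K + 2) := by
    rw [Finset.sum_range_succ'] at h3'
    simp only [Nat.sub_zero, Nat.mul_zero, v_zero, one_mul, Nat.add_sub_add_right] at h3'
    rw [show 2 * (K + 1) = 2 * K + 2 by ring] at h3'
    linarith
  have h1 : ∑ a ∈ range (K + 1), v (2 * a) * v (2 * K + 1 - 2 * a)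
      ≤ ∑ a ∈ range (K + 1), (v (2 * a) * v (2 * (K - a)) + v (2 * a) * v (2 * (K + 1 - a))) / 2 := by
    refine Finset.sum_le_sum fun a ha => ?_
    rw [Finset.mem_range] at ha
    have := v_conv (2 * (K - a))
    have e1 : 2 * K + 1 - 2 * a = 2 * (K - a) + 1 := by omega
    have e2 : 2 * (K + 1 - a) = 2 * (K - a) + 2 := by omega
    rw [e1, e2]
    nlinarith [v_pos (2 * a)]
  have h2 : ∑ a ∈ range (K + 1), v (2 * a + 1) * v (2 * K + 1 - (2 * a + 1))
      ≤ ∑ a ∈ range (K + 1), (v (2 * a) * v (2 * (K - a)) + v (2 * (a + 1)) * v (2 * (K - a))) / 2 := by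
    refine Finset.sum_le_sum fun a ha => ?_
    rw [Finset.mem_range] at ha
    have := v_conv (2 * a)
    have e1 : 2 * K + 1 - (2 * a + 1) = 2 * (K - a) := by omega
    rw [e1, show 2 * (a + 1) = 2 * a + 2 by ring]
    nlinarith [v_pos (2 * (K - a))]
  rw [← Finset.sum_div, Finset.sum_add_distrib, h3, h4] at h1
  rw [← Finset.sum_div, Finset.sum_add_distrib, h3, h5] at h2
  linarith

/-- The product formula for the level bound. -/
def LevelP (k l : ℕ) : Prop :=
  ((k : ℝ) + 1) * ((l : ℝ) + 1) * ((k + l + 2).choose (k + 1) : ℝ) * J (k + 1) (l + 1) ^ 2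
    * (v k * v l) = v (k + l + 2)

lemma choose_two (k l : ℕ) : ((k + 2 + l + 2).choose (k + 2 + 1) : ℝ) * (((k : ℝ) + 3) * (k + 2))
    = ((k : ℝ) + l + 4) * (k + l + 3) * ((k + l + 2).choose (k + 1) : ℝ) := by
  have h1 := Nat.add_one_mul_choose_eq (k + l + 2) (k + 1)
  have h2 := Nat.add_one_mul_choose_eq (k + l + 3) (k + 2)
  have e1 : ((k : ℝ) + l + 3) * ((k + l + 2).choose (k + 1) : ℝ)
      = ((k + l + 3).choose (k + 2) : ℝ) * ((k : ℝ) + 2) := by
    have : (((k + l + 2 + 1 : ℕ)) : ℝ) * ((k + l + 2).choose (k + 1) : ℝ)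
      = ((k + l + 2 + 1).choose (k + 1 + 1) : ℝ) * ((k + 1 + 1 : ℕ) : ℝ) := by exact_mod_cast h1
    push_cast at this
    rw [show k + l + 2 + 1 = k + l + 3 by ring, show k + 1 + 1 = k + 2 by ring] at this
    linear_combination this
  have e2 : ((k : ℝ) + l + 4) * ((k + l + 3).choose (k + 2) : ℝ)
      = ((k + 2 + l + 2).choose (k + 2 + 1) : ℝ) * ((k : ℝ) + 3) := by
    have : (((k + l + 3 + 1 : ℕ)) : ℝ) * ((k + l + 3).choose (k + 2) : ℝ)
      = ((k + l + 3 + 1).choose (k + 2 + 1) : ℝ) * ((k + 2 + 1 : ℕ) : ℝ) := by exact_mod_cast h2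
    push_cast at this
    rw [show k + l + 3 + 1 = k + 2 + l + 2 by ring] at this
    linear_combination this
  linear_combination (-((k : ℝ) + 2)) * e2 - ((k : ℝ) + l + 4) * e1

lemma levelP_left (k l : ℕ) (h : LevelP k l) : LevelP (k + 2) l := by
  unfold LevelP at h ⊢
  have e1 : J (k + 2 + 1) (l + 1) = ((k : ℝ) + 2) / (k + l + 4) * J (k + 1) (l + 1) := by
    rw [show k + 2 + 1 = k + 1 + 2 by ring, J_left]
    push_cast
    congr 2 <;> ring
  have e2 := v_add_two k
  have e3 : v (k + 2 + l + 2) = ((k : ℝ) + l + 3) / (k + l + 4) * v (k + l + 2) := by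
    rw [show k + 2 + l + 2 = k + l + 2 + 2 by ring, v_add_two]
    push_cast
    congr 2 <;> ring
  have e4 := choose_two k l
  have p1 : (0 : ℝ) < (k : ℝ) + 2 := by positivity
  have p2 : (0 : ℝ) < (k : ℝ) + l + 4 := by positivity
  have p3 : (0 : ℝ) < (k : ℝ) + 3 := by positivity
  have p4 : (0 : ℝ) < (k : ℝ) + 1 := by positivity
  have e5 : ((k + 2 + l + 2).choose (k + 2 + 1) : ℝ)
      = ((k : ℝ) + l + 4) * (k + l + 3) * ((k + l + 2).choose (k + 1) : ℝ) / (((k : ℝ) + 3) * (k + 2)) := by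
    rw [eq_div_iff (by positivity)]; exact e4
  rw [e1, e2, e3, e5, ← h]
  push_cast
  field_simp
  ring

lemma levelP_symm (k l : ℕ) (h : LevelP k l) : LevelP l k := by
  unfold LevelP at h ⊢
  have e1 : J (l + 1) (k + 1) = J (k + 1) (l + 1) := by
    unfold J
    have := intervalIntegral.integral_comp_sub_left
      (fun θ : ℝ => sin θ ^ (k + 1) * cos θ ^ (l + 1)) (a := 0) (b := π / 2) (π / 2)
    simp only [sin_pi_div_two_sub, cos_pi_div_two_sub, sub_self, sub_zero] at this
    rw [← this]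
    refine intervalIntegral.integral_congr fun θ _ => ?_
    ring
  have e2 : ((l + k + 2).choose (l + 1) : ℝ) = ((k + l + 2).choose (k + 1) : ℝ) := by
    rw [show l + k + 2 = k + l + 2 by ring]
    have := Nat.choose_symm_of_eq_add (n := k + l + 2) (a := l + 1) (b := k + 1) (by ring)
    rw [this]
  rw [e1, e2, show l + k + 2 = k + l + 2 by ring, ← h]
  ring

lemma levelP_base (k l : ℕ) (hk : k ≤ 1) (hl : l ≤ 1) : LevelP k l := by
  have h00 : LevelP 0 0 := by
    unfold LevelP
    rw [show 0 + 0 + 2 = 0 + 2 by ring, v_add_two, v_zero, J_one_one]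
    norm_num [Nat.choose]
  have h10 : LevelP 1 0 := by
    unfold LevelP
    rw [show 1 + 0 + 2 = 1 + 2 by ring, v_add_two, v_zero, v_one]
    have : J (1 + 1) (0 + 1) = 1 / 3 := by
      rw [show 1 + 1 = 0 + 2 by ring, J_left, show 0 + 1 = 1 by ring, J_zero_one]; norm_num
    rw [this]
    norm_num [Nat.choose]
  have h11 : LevelP 1 1 := by
    unfold LevelP
    rw [show 1 + 1 + 2 = 0 + 2 + 2 by ring, v_add_two, v_add_two, v_zero, v_one]
    have : J (1 + 1) (1 + 1) = π / 16 := by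
      rw [show 1 + 1 = 0 + 2 by ring, J_left, J_right, J_zero_zero]; norm_num; ring
    rw [this]
    norm_num [Nat.choose]
    field_simp
    norm_num
  interval_cases k <;> interval_cases l
  · exact h00
  · exact levelP_symm _ _ h10
  · exact h10
  · exact h11

lemma levelP_all (k l : ℕ) : LevelP k l := by
  have h1 : ∀ k l, l ≤ 1 → LevelP k l := by
    intro k l hl
    induction k using Nat.twoStepInduction with
    | zero => exact levelP_base 0 l (by omega) hl
    | one => exact levelP_base 1 l (by omega) hl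
    | more k ih _ => exact levelP_left k l ih
  induction l using Nat.twoStepInduction with
  | zero => exact h1 k 0 (by omega)
  | one => exact h1 k 1 (by omega)
  | more l ih _ => exact levelP_symm _ _ (levelP_left l k (levelP_symm _ _ ih))

end Pool.Agent.C14U
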